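import Pool.Agent.Q292.LC.Stm7

/-!
# Project LC, piece RES: the resolvent bound for the unmarked cycles
-/

set_option autoImplicit false

namespace Run7.h736.LC

open Finset Equiv Matrix
open Q292.LC

section aux

variable {V : Type} [Fintype V] [DecidableEq V]

/-- matrix determinant lemma with dot products -/
theorem det_add_vec (M : Matrix V V ℝ) (hM : M.det ≠ 0) (u v : V → ℝ) :
    (M + Matrix.vecMulVec u v).det = M.det * (1 + v ⬝ᵥ (M⁻¹ *ᵥ u)) := by
  have h := Matrix.det_add_replicateCol_mul_replicateRow (ι := Unit) (A := M)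
    (isUnit_iff_ne_zero.2 hM) u v
  have h1 : replicateCol Unit u * replicateRow Unit v = Matrix.vecMulVec u v := by
    ext i j
    simp [Matrix.mul_apply, Matrix.vecMulVec_apply]
  rw [h1] at h
  rw [h]
  congr 1
  rw [Matrix.det_unique (1 + replicateRow Unit v * M⁻¹ * replicateCol Unit u)]
  rw [Matrix.add_apply, Matrix.one_apply_eq]
  congr 1
  rw [Matrix.mul_assoc, Matrix.mul_apply]
  simp only [dotProduct, Matrix.replicateRow_apply, Matrix.mul_apply, Matrix.replicateCol_apply,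
    Matrix.mulVec]

omit [Fintype V] in
theorem pm_nonneg (g : Perm V) (a b : V) : 0 ≤ pm g a b := by
  simp only [pm, Matrix.of_apply]
  split_ifs <;> norm_num

theorem pm_row (g : Perm V) (a : V) : ∑ b, pm g a b = 1 := by
  simp [pm, Matrix.of_apply]

/-- the equation of the resolvent of a permutation -/
theorem res_eq (w : ℝ) (g : Perm V) (A : Finset V) (hA : Inv g A) (φ f : V → ℝ)
    (hφ : ∀ a ∈ A, φ a = 0)
    (h : (1 - w • (dg (univ \ A) * pm g)) *ᵥ f = φ) (x : V) : f x - w * f (g x) = φ x := by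
  have hrow : ∀ x, ((1 - w • (dg (univ \ A) * pm g)) *ᵥ f) x =
      f x - w * (if x ∈ A then 0 else f (g x)) := by
    intro x
    rw [Matrix.sub_mulVec, Matrix.one_mulVec, Pi.sub_apply, Matrix.smul_mulVec, Pi.smul_apply,
      smul_eq_mul, ← Matrix.mulVec_mulVec, dg, Matrix.mulVec_diagonal]
    congr 2
    have h1 : (pm g *ᵥ f) x = f (g x) := by
      simp [Matrix.mulVec, dotProduct, pm, Matrix.of_apply]
    rw [h1]
    by_cases hx : x ∈ A
    · simp [hx]
    · simp [hx]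
  have hA0 : ∀ a ∈ A, f a = 0 := by
    intro a ha
    have h1 := hrow a
    rw [h, hφ a ha, if_pos ha] at h1
    linarith
  by_cases hx : x ∈ A
  · rw [hA0 x hx, hA0 _ (hA x hx), hφ x hx]
    ring
  · have h1 := hrow x
    rw [h, if_neg hx] at h1
    exact h1.symm

theorem cyc_sum (g : Perm V) (x : V) (f : V → ℝ) :
    ∑ y ∈ cyc g x, f (g y) = ∑ y ∈ cyc g x, f y := by
  refine Finset.sum_bij' (fun y _ => g y) (fun y _ => g⁻¹ y) ?_ ?_ ?_ ?_ ?_
  · intro a ha
    simp only [cyc, mem_filter, mem_univ, true_and] at ha ⊢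
    exact (Equiv.Perm.sameCycle_apply_right).2 ha
  · intro a ha
    simp only [cyc, mem_filter, mem_univ, true_and] at ha ⊢
    exact (Equiv.Perm.sameCycle_symm_apply_right).2 ha
  · intro a _
    simp
  · intro a _
    simp
  · intro a _
    rfl

theorem mem_cyc_self (g : Perm V) (x : V) : x ∈ cyc g x := by
  simp only [cyc, mem_filter, mem_univ, true_and]
  exact Equiv.Perm.SameCycle.refl g x

theorem cyc_eq (g : Perm V) {x y : V} (h : y ∈ cyc g x) : cyc g y = cyc g x := by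
  simp only [cyc, mem_filter, mem_univ, true_and] at h
  ext z
  simp only [cyc, mem_filter, mem_univ, true_and]
  exact ⟨fun hz => h.trans hz, fun hz => h.symm.trans hz⟩

theorem mem_cyc_comm (g : Perm V) {x y : V} : y ∈ cyc g x ↔ x ∈ cyc g y := by
  simp only [cyc, mem_filter, mem_univ, true_and]
  exact ⟨fun h => h.symm, fun h => h.symm⟩

/-- averaging over the cycles does not change the sum -/
theorem sum_cyc_avg (g : Perm V) (F : V → ℝ) :
    ∑ x, (∑ y ∈ cyc g x, F y) / ((cyc g x).card : ℝ) = ∑ y, F y := by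
  have h1 : ∀ x, (∑ y ∈ cyc g x, F y) / ((cyc g x).card : ℝ) =
      ∑ y, if y ∈ cyc g x then F y / ((cyc g y).card : ℝ) else 0 := by
    intro x
    rw [Finset.sum_div, ← Finset.sum_filter]
    have : (univ.filter fun y => y ∈ cyc g x) = cyc g x := by
      ext y
      simp
    rw [this]
    refine Finset.sum_congr rfl fun y hy => ?_
    rw [cyc_eq g hy]
  simp only [h1]
  rw [Finset.sum_comm]
  refine Finset.sum_congr rfl fun y _ => ?_
  have h2 : ∀ x, (if y ∈ cyc g x then F y / ((cyc g y).card : ℝ) else 0) =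
      if x ∈ cyc g y then F y / ((cyc g y).card : ℝ) else 0 := by
    intro x
    by_cases h : y ∈ cyc g x
    · rw [if_pos h, if_pos ((mem_cyc_comm g).1 h)]
    · rw [if_neg h, if_neg fun h' => h ((mem_cyc_comm g).2 h')]
  simp only [h2]
  rw [← Finset.sum_filter]
  have : (univ.filter fun x => x ∈ cyc g y) = cyc g y := by
    ext x
    simp
  rw [this, Finset.sum_const, nsmul_eq_mul]
  have hpos : (0 : ℝ) < ((cyc g y).card : ℝ) := by
    exact_mod_cast Finset.card_pos.2 ⟨y, mem_cyc_self g y⟩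
  field_simp

/-- the bound for one permutation -/
theorem cyc_bound (w : ℝ) (hw0 : 0 ≤ w) (hw1 : w < 1) (g : Perm V) (A : Finset V) (φ f : V → ℝ)
    (h : ∀ x, f x - w * f (g x) = φ x) :
    ∑ x ∈ univ \ A, ((∑ y ∈ cyc g x, φ y) / ((cyc g x).card : ℝ)) ^ 2 ≤ (1 - w) * (φ ⬝ᵥ f) := by
  have h1 : ∀ x, ((∑ y ∈ cyc g x, φ y) / ((cyc g x).card : ℝ)) ^ 2 ≤
      (1 - w) ^ 2 * ((∑ y ∈ cyc g x, f y ^ 2) / ((cyc g x).card : ℝ)) := by
    intro x
    have hpos : (0 : ℝ) < ((cyc g x).card : ℝ) := by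
      exact_mod_cast Finset.card_pos.2 ⟨x, mem_cyc_self g x⟩
    have h2 : ∑ y ∈ cyc g x, φ y = (1 - w) * ∑ y ∈ cyc g x, f y := by
      have : ∑ y ∈ cyc g x, φ y = ∑ y ∈ cyc g x, (f y - w * f (g y)) :=
        Finset.sum_congr rfl fun y _ => (h y).symm
      rw [this, Finset.sum_sub_distrib, ← Finset.mul_sum, cyc_sum]
      ring
    have h3 : (∑ y ∈ cyc g x, f y) ^ 2 ≤ ((cyc g x).card : ℝ) * ∑ y ∈ cyc g x, f y ^ 2 :=
      sq_sum_le_card_mul_sum_sq
    rw [h2, div_pow, mul_pow]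
    rw [div_le_iff₀ (by positivity)]
    have h4 : (1 - w) ^ 2 * ((∑ y ∈ cyc g x, f y ^ 2) / ((cyc g x).card : ℝ)) *
        ((cyc g x).card : ℝ) ^ 2 = (1 - w) ^ 2 * (((cyc g x).card : ℝ) * ∑ y ∈ cyc g x, f y ^ 2) := by
      field_simp
    rw [h4]
    exact mul_le_mul_of_nonneg_left h3 (sq_nonneg _)
  have h5 : ∑ x ∈ univ \ A, ((∑ y ∈ cyc g x, φ y) / ((cyc g x).card : ℝ)) ^ 2 ≤
      ∑ x, ((∑ y ∈ cyc g x, φ y) / ((cyc g x).card : ℝ)) ^ 2 :=
    Finset.sum_le_sum_of_subset_of_nonneg (Finset.subset_univ _) fun _ _ _ => sq_nonneg _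
  have h6 : ∑ x, ((∑ y ∈ cyc g x, φ y) / ((cyc g x).card : ℝ)) ^ 2 ≤ (1 - w) ^ 2 * ∑ y, f y ^ 2 := by
    calc _ ≤ ∑ x, (1 - w) ^ 2 * ((∑ y ∈ cyc g x, f y ^ 2) / ((cyc g x).card : ℝ)) :=
          Finset.sum_le_sum fun x _ => h1 x
      _ = _ := by rw [← Finset.mul_sum, sum_cyc_avg g fun y => f y ^ 2]
  have h7 : (1 - w) * ∑ y, f y ^ 2 ≤ φ ⬝ᵥ f := by
    have h8 : φ ⬝ᵥ f = ∑ x, (f x - w * f (g x)) * f x := by
      simp only [dotProduct]
      exact Finset.sum_congr rfl fun x _ => by rw [h x]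
    have h9 : ∑ x, f (g x) ^ 2 = ∑ x, f x ^ 2 := Equiv.sum_comp g fun x => f x ^ 2
    have h10 : ∑ x, (f x ^ 2 - w * ((f x ^ 2 + f (g x) ^ 2) / 2)) ≤ ∑ x, (f x - w * f (g x)) * f x := by
      refine Finset.sum_le_sum fun x _ => ?_
      nlinarith [mul_nonneg hw0 (sq_nonneg (f x - f (g x)))]
    have h11 : ∑ x, (f x ^ 2 - w * ((f x ^ 2 + f (g x) ^ 2) / 2)) = (1 - w) * ∑ y, f y ^ 2 := by
      rw [Finset.sum_sub_distrib, ← Finset.mul_sum, ← Finset.sum_div, Finset.sum_add_distrib, h9]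
      ring
    rw [h8, ← h11]
    exact h10
  have hw : 0 ≤ 1 - w := by linarith
  calc _ ≤ (1 - w) ^ 2 * ∑ y, f y ^ 2 := h5.trans h6
    _ = (1 - w) * ((1 - w) * ∑ y, f y ^ 2) := by ring
    _ ≤ _ := mul_le_mul_of_nonneg_left h7 hw

/-- the expectation of a finite sum -/
theorem EE_sum {ι : Type} (s : Finset ι) (n : ℕ) (δ : ℝ) (F : ι → (ℕ → Bool) → ℝ) :
    EE n δ (fun ω => ∑ i ∈ s, F i ω) = ∑ i ∈ s, EE n δ (F i) := by
  simp only [EE, Finset.mul_sum]
  rw [Finset.sum_comm]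

end aux

open Classical in
theorem t_RES (hL1 : S_L1) (hGRN : S_GRN) (hP1 : S_P1) (hB1 : S_BAS1) (hB2 : S_BAS2)
    (hB3 : S_BAS3) : S_RES := by
  intro V _ _ e n δ w Λ B φ hδ0 hδ1 hw0 hw1 hΛ hB hφ hφ0 hΛb
  obtain ⟨-, hE2, hE3, hE4, -, -, -⟩ := hB3 n δ hδ0 hδ1
  have hw : 0 ≤ 1 - w := by linarith
  -- notation
  set Θ : Finset V → (ℕ → Bool) → ℝ := fun A ω =>
    if Inv (gp e ω n) A ∧ B ω A then w ^ A.card else 0 with hΘ
  have hΘ0 : ∀ A ω, 0 ≤ Θ A ω := by
    intro A ω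
    simp only [hΘ]
    split_ifs
    · positivity
    · exact le_rfl
  have hΘm : ∀ A, Rmeas e n A (Θ A) := by
    intro A ω ω' h
    obtain ⟨h1, -⟩ := (hB1 V e ω).2.2 A n ω' h
    have hI : Inv (gp e ω n) A ↔ Inv (gp e ω' n) A := by
      constructor
      · intro hI a ha
        rw [← h1 n le_rfl a ha]
        exact hI a ha
      · intro hI a ha
        rw [h1 n le_rfl a ha]
        exact hI a ha
    have hBB : B ω A = B ω' A := hB A ω ω' h
    simp only [hΘ, hI, hBB]
  have hφm : ∀ A, Rmeas e n A (fun ω => (1 : Matrix V V ℝ) + vecMulVec (φ ω A) (φ ω A)) := by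
    intro A ω ω' h
    have h1 : φ ω A = φ ω' A := hφ A ω ω' h
    simp only [h1]
  have hdP : ∀ (U : Finset V) (g : Perm V), 0 < dS w U (pm g) := fun U g => by
    by_cases hV : Nonempty V
    · obtain ⟨v⟩ := hV
      exact (hGRN V (pm g) w 0 U v v (pm_nonneg g) (fun a => (pm_row g a).le) hw0 hw1).1
    · have : IsEmpty V := not_nonempty_iff.1 hV
      simp [dS, Matrix.det_isEmpty]
  have hdT : ∀ (U A : Finset V) (ω : ℕ → Bool), 0 < dS w U (TT e ω A δ n) := fun U A ω => by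
    by_cases hV : Nonempty V
    · obtain ⟨v⟩ := hV
      have h2 := hB2 V e ω A δ hδ0 hδ1
      exact (hGRN V (TT e ω A δ n) w 0 U v v (h2.1 n) (fun a => (h2.2.1 n a).le) hw0 hw1).1
    · have : IsEmpty V := not_nonempty_iff.1 hV
      simp [dS, Matrix.det_isEmpty]
  -- the resolvent forms
  set qP : Finset V → (ℕ → Bool) → ℝ := fun A ω =>
    φ ω A ⬝ᵥ ((1 - w • (dg (univ \ A) * pm (gp e ω n)))⁻¹ *ᵥ φ ω A) with hqP
  set qT : Finset V → (ℕ → Bool) → ℝ := fun A ω =>
    φ ω A ⬝ᵥ ((1 - w • (dg (univ \ A) * TT e ω A δ n))⁻¹ *ᵥ φ ω A) with hqT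
  -- two uses of L1
  have key : ∀ A, EE n δ (fun ω => Θ A ω * (dS w (univ \ A) (pm (gp e ω n)) * qP A ω)) ≤
      Λ * EE n δ (fun ω => Θ A ω * dS w (univ \ A) (pm (gp e ω n))) := by
    intro A
    have hY : Rmeas e n A (fun _ => -(w • dg (univ \ A))) := fun _ _ _ => rfl
    have h1 := hL1 V e n δ A (Θ A) (fun ω => 1 + vecMulVec (φ ω A) (φ ω A))
      (fun _ => -(w • dg (univ \ A))) hδ0 hδ1 (hΘm A) (hφm A) hY
    have h2 := hL1 V e n δ A (Θ A) (fun _ => 1)
      (fun _ => -(w • dg (univ \ A))) hδ0 hδ1 (hΘm A) (fun _ _ _ => rfl) hY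
    have e1 : ∀ (P : Matrix V V ℝ), (1 : Matrix V V ℝ) + -(w • dg (univ \ A)) * P =
        1 - w • (dg (univ \ A) * P) := by
      intro P
      rw [neg_mul, smul_mul_assoc, sub_eq_add_neg]
    have e2 : ∀ (P : Matrix V V ℝ) (u : V → ℝ), (1 : Matrix V V ℝ) + vecMulVec u u +
        -(w • dg (univ \ A)) * P = (1 - w • (dg (univ \ A) * P)) + vecMulVec u u := by
      intro P u
      rw [neg_mul, smul_mul_assoc, sub_eq_add_neg]
      abel
    have e3 : ∀ ω, Θ A ω * ((1 : Matrix V V ℝ) + vecMulVec (φ ω A) (φ ω A) +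
        -(w • dg (univ \ A)) * pm (gp e ω n)).det =
        Θ A ω * dS w (univ \ A) (pm (gp e ω n)) +
          Θ A ω * (dS w (univ \ A) (pm (gp e ω n)) * qP A ω) := by
      intro ω
      rw [e2, det_add_vec _ (hdP (univ \ A) (gp e ω n)).ne']
      simp only [hqP, dS]
      ring
    have e4 : ∀ ω, Θ A ω * ((1 : Matrix V V ℝ) + vecMulVec (φ ω A) (φ ω A) +
        -(w • dg (univ \ A)) * TT e ω A δ n).det =
        Θ A ω * dS w (univ \ A) (TT e ω A δ n) +
          Θ A ω * (dS w (univ \ A) (TT e ω A δ n) * qT A ω) := by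
      intro ω
      rw [e2, det_add_vec _ (hdT (univ \ A) A ω).ne']
      simp only [hqT, dS]
      ring
    simp only [e3, e4] at h1
    simp only [e1] at h2
    rw [hE2, hE2] at h1
    have h2' : EE n δ (fun ω => Θ A ω * dS w (univ \ A) (pm (gp e ω n))) =
        EE n δ (fun ω => Θ A ω * dS w (univ \ A) (TT e ω A δ n)) := h2
    have h3 : EE n δ (fun ω => Θ A ω * (dS w (univ \ A) (pm (gp e ω n)) * qP A ω)) =
        EE n δ (fun ω => Θ A ω * (dS w (univ \ A) (TT e ω A δ n) * qT A ω)) := by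
      linarith
    rw [h3, h2', ← hE3]
    refine hE4 _ _ fun ω => ?_
    by_cases hc : Inv (gp e ω n) A ∧ B ω A
    · have h4 := hΛb ω A hc.1 hc.2
      have h5 : dS w (univ \ A) (TT e ω A δ n) * qT A ω ≤ dS w (univ \ A) (TT e ω A δ n) * Λ :=
        mul_le_mul_of_nonneg_left h4 (hdT _ _ _).le
      calc _ ≤ Θ A ω * (dS w (univ \ A) (TT e ω A δ n) * Λ) :=
            mul_le_mul_of_nonneg_left h5 (hΘ0 A ω)
        _ = _ := by ring
    · have h0 : Θ A ω = 0 := by simp only [hΘ, if_neg hc]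
      rw [h0]
      simp
  -- total mass
  have mass : ∑ A : Finset V, EE n δ (fun ω => Θ A ω * dS w (univ \ A) (pm (gp e ω n))) ≤ 1 := by
    rw [← EE_sum]
    calc _ ≤ EE n δ (fun _ => (1 : ℝ)) := by
          refine hE4 _ _ fun ω => ?_
          have h1 := hP1 V (gp e ω n) w ∅ hw0 hw1
          rw [← h1]
          refine Finset.sum_le_sum fun A _ => ?_
          by_cases hI : Inv (gp e ω n) A
          · have hI' : Inv (gp e ω n) A ∧ Disjoint A (∅ : Finset V) := ⟨hI, by simp⟩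
            rw [if_pos hI', Finset.union_empty]
            by_cases hb : B ω A
            · have : Θ A ω = w ^ A.card := by simp only [hΘ, if_pos (And.intro hI hb)]
              rw [this]
            · have : Θ A ω = 0 := by
                simp only [hΘ]
                exact if_neg fun h => hb h.2
              rw [this, zero_mul]
              exact mul_nonneg (pow_nonneg hw0 _) (hdP _ _).le
          · have : Θ A ω = 0 := by
              simp only [hΘ]
              exact if_neg fun h => hI h.1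
            have hI' : ¬ (Inv (gp e ω n) A ∧ Disjoint A (∅ : Finset V)) := fun h => hI h.1
            rw [this, if_neg hI', zero_mul]
      _ = 1 := (hB3 n δ hδ0 hδ1).1 1
  -- pointwise bound
  have point : ∀ ω, (∑ A : Finset V, if Inv (gp e ω n) A then
      w ^ A.card * dS w (univ \ A) (pm (gp e ω n)) * (if B ω A then ∑ x ∈ univ \ A,
        ((∑ y ∈ cyc (gp e ω n) x, φ ω A y) / ((cyc (gp e ω n) x).card : ℝ)) ^ 2 else 0) else 0) ≤
      (1 - w) * ∑ A : Finset V, Θ A ω * (dS w (univ \ A) (pm (gp e ω n)) * qP A ω) := by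
    intro ω
    rw [Finset.mul_sum]
    refine Finset.sum_le_sum fun A _ => ?_
    by_cases hI : Inv (gp e ω n) A
    · rw [if_pos hI]
      by_cases hb : B ω A
      · rw [if_pos hb]
        have hΘA : Θ A ω = w ^ A.card := by simp only [hΘ, if_pos (And.intro hI hb)]
        rw [hΘA]
        have hdet := hdP (univ \ A) (gp e ω n)
        have hunit : IsUnit (1 - w • (dg (univ \ A) * pm (gp e ω n))).det :=
          isUnit_iff_ne_zero.2 hdet.ne'
        have hf : (1 - w • (dg (univ \ A) * pm (gp e ω n))) *ᵥ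
            ((1 - w • (dg (univ \ A) * pm (gp e ω n)))⁻¹ *ᵥ φ ω A) = φ ω A := by
          rw [Matrix.mulVec_mulVec, Matrix.mul_nonsing_inv _ hunit, Matrix.one_mulVec]
        have hb1 := cyc_bound w hw0 hw1 (gp e ω n) A (φ ω A)
          ((1 - w • (dg (univ \ A) * pm (gp e ω n)))⁻¹ *ᵥ φ ω A)
          (res_eq w (gp e ω n) A hI (φ ω A) _ (hφ0 ω A) hf)
        calc _ ≤ w ^ A.card * dS w (univ \ A) (pm (gp e ω n)) * ((1 - w) * qP A ω) :=
              mul_le_mul_of_nonneg_left hb1 (mul_nonneg (pow_nonneg hw0 _) hdet.le)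
          _ = _ := by ring
      · rw [if_neg hb]
        have : Θ A ω = 0 := by
          simp only [hΘ]
          exact if_neg fun h => hb h.2
        rw [this]
        simp
    · rw [if_neg hI]
      have : Θ A ω = 0 := by
        simp only [hΘ]
        exact if_neg fun h => hI h.1
      rw [this]
      simp
  calc PE e n δ w (fun ω A => if B ω A then ∑ x ∈ univ \ A,
        ((∑ y ∈ cyc (gp e ω n) x, φ ω A y) / ((cyc (gp e ω n) x).card : ℝ)) ^ 2 else 0)
      ≤ EE n δ (fun ω => (1 - w) *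
          ∑ A : Finset V, Θ A ω * (dS w (univ \ A) (pm (gp e ω n)) * qP A ω)) := by
        refine hE4 _ _ fun ω => ?_
        convert point ω using 2
    _ = (1 - w) * ∑ A : Finset V,
          EE n δ (fun ω => Θ A ω * (dS w (univ \ A) (pm (gp e ω n)) * qP A ω)) := by
        rw [hE3, EE_sum]
    _ ≤ (1 - w) * ∑ A : Finset V,
          Λ * EE n δ (fun ω => Θ A ω * dS w (univ \ A) (pm (gp e ω n))) :=
        mul_le_mul_of_nonneg_left (Finset.sum_le_sum fun A _ => key A) hw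
    _ = (1 - w) * (Λ * ∑ A : Finset V,
          EE n δ (fun ω => Θ A ω * dS w (univ \ A) (pm (gp e ω n)))) := by
        rw [← Finset.mul_sum]
    _ ≤ (1 - w) * (Λ * 1) :=
        mul_le_mul_of_nonneg_left (mul_le_mul_of_nonneg_left mass hΛ) hw
    _ = (1 - w) * Λ := by ring

end Run7.h736.LC
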